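import Mathlib
import Pool.Agent.MP_e47a12_co.Cert
import Pool.Agent.MP_e47a12_co.Data
import Pool.Agent.MP_e47a12_co.Six

/-!
# Largest lattice circles enclosing `n` lattice points

A largest `n`-enclosing lattice circle exists if and only if `n ≠ 6`.
-/

namespace Pool.Agent.Results.MP_e47a12_co.AllButSix

open Pool.Agent.MP_e47a12_co

/-- The lattice points of the Euclidean plane: both coordinates are integers. -/
def lattice : Set (EuclideanSpace ℝ (Fin 2)) := {P | ∀ i, ∃ k : ℤ, P i = k}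

/-- The circle with centre `c` and radius `r > 0` encloses exactly `n` lattice points (in the open
disc) and has at least three lattice points on its circumference. -/
def EnclosingLatticeCircle (n : ℕ) (c : EuclideanSpace ℝ (Fin 2)) (r : ℝ) : Prop :=
  0 < r ∧ (lattice ∩ Metric.ball c r).encard = n ∧ 3 ≤ (lattice ∩ Metric.sphere c r).encard

noncomputable def emb (z : ℤ × ℤ) : EuclideanSpace ℝ (Fin 2) := !₂[(z.1 : ℝ), (z.2 : ℝ)]

lemma emb_inj : Function.Injective emb := by
  intro z w h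
  have h0 := congrArg (fun P : EuclideanSpace ℝ (Fin 2) => P 0) h
  have h1 := congrArg (fun P : EuclideanSpace ℝ (Fin 2) => P 1) h
  simp only [emb, Matrix.cons_val_zero, Matrix.cons_val_one, Int.cast_inj] at h0 h1
  exact Prod.ext h0 h1

lemma lattice_inter (S : Set (EuclideanSpace ℝ (Fin 2))) : lattice ∩ S = emb '' (emb ⁻¹' S) := by
  rw [Set.image_preimage_eq_range_inter]
  congr 1
  ext P
  constructor
  · intro h
    obtain ⟨x, hx⟩ := h 0
    obtain ⟨y, hy⟩ := h 1
    refine ⟨(x, y), ?_⟩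
    ext i
    fin_cases i <;> simp [emb, hx, hy]
  · rintro ⟨z, rfl⟩ i
    fin_cases i <;> simp [emb]

lemma dist_emb (c : EuclideanSpace ℝ (Fin 2)) (z : ℤ × ℤ) :
    dist (emb z) c = √(dsq (c 0) (c 1) z) := by
  rw [EuclideanSpace.dist_eq]
  simp [emb, dsq, Real.dist_eq]

lemma bridge (n : ℕ) (c : EuclideanSpace ℝ (Fin 2)) {r : ℝ} (hr : 0 < r) :
    EnclosingLatticeCircle n c r ↔ Lat n (c 0) (c 1) (r ^ 2) := by
  have e1 : emb ⁻¹' Metric.ball c r = ins (c 0) (c 1) (r ^ 2) := by
    ext z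
    simp only [Set.mem_preimage, Metric.mem_ball, dist_emb, ins, Set.mem_ofPred_eq,
      Real.sqrt_lt' hr]
  have e2 : emb ⁻¹' Metric.sphere c r = bd (c 0) (c 1) (r ^ 2) := by
    ext z
    simp only [Set.mem_preimage, Metric.mem_sphere, dist_emb, bd, Set.mem_ofPred_eq]
    rw [Real.sqrt_eq_iff_eq_sq (by unfold dsq; positivity) hr.le]
  have f : (bd (c 0) (c 1) (r ^ 2)).Finite := (finite_le _ _ _).subset fun z hz => le_of_eq hz
  rw [EnclosingLatticeCircle, lattice_inter, lattice_inter, e1, e2, emb_inj.encard_image,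
    emb_inj.encard_image, ← (ins_finite _ _ _).cast_ncard_eq, ← f.cast_ncard_eq, MP_e47a12_co.Lat,
    ← Set.two_lt_ncard f]
  norm_cast
  simp only [hr, true_and]
  rfl

theorem result (n : ℕ) :
    (∃ c r, EnclosingLatticeCircle n c r ∧
      ∀ c' r', EnclosingLatticeCircle n c' r' → r' ≤ r) ↔ n ≠ 6 := by
  constructor
  · rintro ⟨c, r, h, -⟩ rfl
    exact not_ex_six ⟨_, _, _, (bridge 6 c h.1).1 h⟩
  · intro h6
    have h : Ex n := by
      by_cases hn : n < 31000000
      · exact ex_small hn h6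
      · exact ex_large (not_lt.1 hn)
    obtain ⟨u, v, ρ, h1, h2⟩ := h.exists_max
    have hr := Real.sqrt_pos.2 h1.pos
    refine ⟨!₂[u, v], √ρ, (bridge n _ hr).2 (by rw [Real.sq_sqrt h1.pos.le]; exact h1),
      fun c r hc => Real.le_sqrt_of_sq_le (h2 _ _ _ ((bridge n c hc.1).1 hc))⟩

end Pool.Agent.Results.MP_e47a12_co.AllButSix
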